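import Mathlib

/-! Expansions along a biorthogonal system. -/

set_option autoImplicit false

namespace Pool.Agent.Q62.RP

open MeasureTheory Set Metric Filter Topology

variable {E : Type} [NormedAddCommGroup E] [NormedSpace ℂ E] [CompleteSpace E]

theorem summable_smul {u : ℕ → E} {C : ℝ} (hu : ∀ m, ‖u m‖ ≤ C) {f : ℕ → ℂ}
    (hf : Summable fun m => ‖f m‖) : Summable fun m => f m • u m := by
  refine Summable.of_norm_bounded (hf.mul_right C) fun m => ?_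
  rw [norm_smul]
  exact mul_le_mul_of_nonneg_left (hu m) (norm_nonneg _)

theorem side (A : E →L[ℂ] E) (u : ℕ → E) (C : ℝ) (hu : ∀ m, ‖u m‖ ≤ C) (lam : ℕ → ℂ)
    (a : ℕ → ℕ → ℂ) (ha : Summable fun p : ℕ × ℕ => ‖a p.1 p.2‖) (κ : ℂ)
    (hA : ∀ n, A (u n) = lam n • u n + κ • ∑' m, a m n • u m)
    (f : ℕ → ℂ) (hf : Summable fun m => ‖f m‖) (x : ℕ → ℂ) (hx : Summable fun m => ‖x m‖)
    (z : ℂ) (heq : ∀ m, (z - lam m) * f m = x m + κ * ∑' j, a m j * f j) :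
    z • (∑' m, f m • u m) - A (∑' m, f m • u m) = ∑' m, x m • u m := by
  have hC0 : 0 ≤ C := (norm_nonneg _).trans (hu 0)
  set Mf : ℝ := ∑' m, ‖f m‖ with hMf
  have hMf0 : 0 ≤ Mf := tsum_nonneg fun _ => norm_nonneg _
  have hfM : ∀ m, ‖f m‖ ≤ Mf := fun m => hf.le_tsum m fun _ _ => norm_nonneg _
  have hrow : ∀ m, Summable fun j => ‖a m j‖ := fun m => ha.prod_factor m
  have hcol : ∀ m, Summable fun j => ‖a j m‖ := fun m =>
    ((Equiv.prodComm ℕ ℕ).summable_iff.mpr ha).prod_factor m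
  have hP : Summable fun p : ℕ × ℕ => (a p.1 p.2 * f p.2) • u p.1 := by
    refine Summable.of_norm_bounded (ha.mul_right (Mf * C)) fun p => ?_
    rw [norm_smul, norm_mul, mul_assoc]
    refine mul_le_mul_of_nonneg_left ?_ (norm_nonneg _)
    exact mul_le_mul (hfM _) (hu _) (norm_nonneg _) hMf0
  set P := ∑' p : ℕ × ℕ, (a p.1 p.2 * f p.2) • u p.1 with hPdef
  have H4 : HasSum (fun m => (∑' j, a m j * f j) • u m) P := by
    refine hP.hasSum.prod_fiberwise fun m => ?_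
    have h1 : Summable fun j => a m j * f j := by
      refine Summable.of_norm_bounded ((hrow m).mul_right Mf) fun j => ?_
      rw [norm_mul]
      exact mul_le_mul_of_nonneg_left (hfM j) (norm_nonneg _)
    exact h1.hasSum.smul_const (u m)
  have H5 : HasSum (fun j => f j • ∑' m, a m j • u m) P := by
    have h0 : HasSum (fun p : ℕ × ℕ => (a p.2 p.1 * f p.1) • u p.2) P :=
      (Equiv.prodComm ℕ ℕ).hasSum_iff.mpr hP.hasSum
    refine h0.prod_fiberwise fun j => ?_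
    have h1 : Summable fun m => a m j • u m := summable_smul hu (hcol j)
    have h2 := h1.hasSum.const_smul (f j)
    simp only [smul_smul] at h2
    simp only [mul_comm (f j)] at h2
    exact h2
  have H1 : HasSum (fun m => f m • u m) (∑' m, f m • u m) := (summable_smul hu hf).hasSum
  have H2 : HasSum (fun m => A (f m • u m)) (A (∑' m, f m • u m)) := A.hasSum H1
  have H3 : HasSum (fun m => x m • u m) (∑' m, x m • u m) := (summable_smul hu hx).hasSum
  have H6 := ((H1.const_smul z).sub H2).sub H3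
  have H7 := (H4.const_smul κ).sub (H5.const_smul κ)
  have h8 : (fun m => z • f m • u m - A (f m • u m) - x m • u m) =
      fun m => κ • (∑' j, a m j * f j) • u m - κ • f m • ∑' j, a j m • u j := by
    funext m
    rw [map_smul, hA m, smul_add, smul_comm (f m) κ]
    have h9 : z • f m • u m - f m • lam m • u m - x m • u m =
        κ • (∑' j, a m j * f j) • u m := by
      rw [smul_smul, smul_smul, smul_smul, ← sub_smul, ← sub_smul]
      congr 1
      have := heq m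
      linear_combination this
    rw [← h9]
    abel
  rw [h8] at H6
  have h10 := H6.unique H7
  rw [sub_self] at h10
  exact sub_eq_zero.mp h10

/-- the test sequence -/
noncomputable def xs (φ : ℕ → ℕ) : ℕ → ℂ := Function.extend φ (fun i => (1 / 2 : ℂ) ^ i) 0

theorem summable_xs {φ : ℕ → ℕ} (hφ : StrictMono φ) : Summable fun m => ‖xs φ m‖ := by
  refine (hφ.injective.summable_iff ?_).mp ?_
  · intro m hm
    unfold xs
    rw [Function.extend_apply' _ _ _ (fun h => hm h)]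
    simp
  · have : (fun m => ‖xs φ m‖) ∘ φ = fun i => (1 / 2 : ℝ) ^ i := by
      funext i
      simp only [Function.comp, xs, hφ.injective.extend_apply]
      rw [norm_pow]
      norm_num
    rw [this]
    exact summable_geometric_two

theorem noloc (A : E →L[ℂ] E) (u : ℕ → E) (ζ : ℕ → E →L[ℂ] ℂ) (C : ℝ) (hu : ∀ m, ‖u m‖ ≤ C)
    (hζ : ∀ m, ‖ζ m‖ ≤ C) (hbi : ∀ m n, ζ m (u n) = if m = n then 1 else 0) (lam : ℕ → ℂ)
    (ρ : ℕ → ℝ) (hρ : ∀ n v, ‖ζ n (A v) - lam n * ζ n v‖ ≤ ρ n * ‖v‖) (c : ℂ) (φ : ℕ → ℕ)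
    (hφ : StrictMono φ)
    (hφ' : ∀ i, ‖lam (φ i) - c‖ ≤ (1 / 4 : ℝ) ^ i ∧ ρ (φ i) ≤ (1 / 4 : ℝ) ^ i) (v : E) :
    c • v - A v ≠ ∑' m, xs φ m • u m := by
  intro hv
  have hC0 : 0 ≤ C := (norm_nonneg _).trans (hu 0)
  have h1 : ∀ i, ζ (φ i) (∑' m, xs φ m • u m) = (1 / 2 : ℂ) ^ i := by
    intro i
    rw [(ζ (φ i)).map_tsum (summable_smul hu (summable_xs hφ))]
    rw [tsum_eq_single (φ i)]
    · rw [map_smul, hbi, if_pos rfl, smul_eq_mul, mul_one, xs, hφ.injective.extend_apply]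
    · intro m hm
      rw [map_smul, hbi, if_neg (Ne.symm hm), smul_zero]
  have h2 : ∀ i, (1 / 2 : ℝ) ^ i ≤ (1 / 4 : ℝ) ^ i * ((C + 1) * ‖v‖) := by
    intro i
    have h3 := h1 i
    rw [← hv, map_sub, map_smul, smul_eq_mul] at h3
    have h4 : (1 / 2 : ℂ) ^ i = -((lam (φ i) - c) * ζ (φ i) v) -
        (ζ (φ i) (A v) - lam (φ i) * ζ (φ i) v) := by
      rw [← h3]; ring
    have h5 : ‖(1 / 2 : ℂ) ^ i‖ = (1 / 2 : ℝ) ^ i := by
      rw [norm_pow]; norm_num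
    rw [← h5, h4]
    refine (norm_sub_le _ _).trans ?_
    rw [norm_neg, norm_mul]
    have h6 : ‖lam (φ i) - c‖ * ‖ζ (φ i) v‖ ≤ (1 / 4 : ℝ) ^ i * (C * ‖v‖) := by
      refine mul_le_mul (hφ' i).1 ?_ (norm_nonneg _) (by positivity)
      exact ((ζ (φ i)).le_opNorm v).trans (mul_le_mul_of_nonneg_right (hζ _) (norm_nonneg _))
    have h7 := hρ (φ i) v
    have h8 : ρ (φ i) * ‖v‖ ≤ (1 / 4 : ℝ) ^ i * ‖v‖ :=
      mul_le_mul_of_nonneg_right (hφ' i).2 (norm_nonneg _)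
    nlinarith
  obtain ⟨i, hi⟩ := pow_unbounded_of_one_lt ((C + 1) * ‖v‖) (by norm_num : (1:ℝ) < 2)
  have h9 := h2 i
  have h10 : (1 / 4 : ℝ) ^ i = (1 / 2) ^ i * (1 / 2) ^ i := by
    rw [← mul_pow]; norm_num
  have h11 : (0:ℝ) < (1 / 2) ^ i := by positivity
  have h12 : (1:ℝ) ≤ (1 / 2) ^ i * ((C + 1) * ‖v‖) := by
    rw [h10, mul_assoc] at h9
    by_contra hcon
    push Not at hcon
    nlinarith
  have h13 : (1 / 2 : ℝ) ^ i * 2 ^ i = 1 := by
    rw [← mul_pow]; norm_num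
  nlinarith

omit [NormedAddCommGroup E] [NormedSpace ℂ E] [CompleteSpace E] in
theorem choose_seq (lam : ℕ → ℂ) (ρ : ℕ → ℝ) (hρ : Tendsto ρ atTop (𝓝 0)) (c : ℂ)
    (hc : MapClusterPt c atTop lam) : ∃ φ : ℕ → ℕ, StrictMono φ ∧
      ∀ i, ‖lam (φ i) - c‖ ≤ (1 / 4 : ℝ) ^ i ∧ ρ (φ i) ≤ (1 / 4 : ℝ) ^ i := by
  refine Filter.extraction_forall_of_frequently
    (P := fun i n => ‖lam n - c‖ ≤ (1 / 4 : ℝ) ^ i ∧ ρ n ≤ (1 / 4 : ℝ) ^ i) fun i => ?_
  have h0 : (0:ℝ) < (1 / 4) ^ i := by positivity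
  have h1 : ∃ᶠ n in atTop, lam n ∈ ball c ((1 / 4 : ℝ) ^ i) :=
    hc.frequently (ball_mem_nhds c h0)
  have h2 : ∀ᶠ n in atTop, ρ n < (1 / 4 : ℝ) ^ i := hρ.eventually (gt_mem_nhds h0)
  refine (h1.and_eventually h2).mono fun n hn => ⟨?_, hn.2.le⟩
  rw [← dist_eq_norm]
  exact (mem_ball.mp hn.1).le

end Pool.Agent.Q62.RP
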