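import Pool.Agent.Q62.RP.Scal2
import Pool.Agent.Q62.RP.Side
import Pool.Agent.W610.HY.Fin
import Pool.Agent.W22.HY.NZ2

/-! Hyperinvariant subspaces of `D + exp(iθ) K` for almost every `θ`. -/

set_option autoImplicit false

namespace Pool.Agent.Q62.RP

open MeasureTheory Set Metric Filter Topology
open scoped ENNReal

theorem mloc : Pool.Agent.W610.HY.MLOC :=
  Pool.Agent.W610.HY.Two.area Pool.Agent.W15.HY.CIRC.main
    (Pool.Agent.W610.HY.Two.main Pool.Agent.W610.HY.Fin.hGOOD2 Pool.Agent.W22.HY.NZ2.main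
      Pool.Agent.W389.HY.ABM.main)

theorem measurable_posLog' : Measurable Real.posLog := by
  have : Real.posLog = fun t => max 0 (Real.log t) := by
    funext t; rfl
  rw [this]
  exact measurable_const.max Real.measurable_log

theorem resolv {E : Type} [NormedAddCommGroup E] [NormedSpace ℂ E] [CompleteSpace E]
    (A : ℝ → E →L[ℂ] E) (u : ℕ → E) (C : ℝ) (hu : ∀ m, ‖u m‖ ≤ C) (lam : ℕ → ℂ) (L : ℝ)
    (hL : ∀ m, ‖lam m‖ ≤ L) (a : ℕ → ℕ → ℂ) (ha : Summable fun p : ℕ × ℕ => ‖a p.1 p.2‖)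
    (hA : ∀ θ n, A θ (u n) = lam n • u n + circleMap 0 1 θ • ∑' m, a m n • u m)
    (x : ℕ → ℂ) (hx : Summable fun m => ‖x m‖) (R : ℝ) :
    ∀ᵐ θ ∂(volume.restrict (Ioc (0:ℝ) (2 * Real.pi))), ∃ F : ℂ → E,
      AEStronglyMeasurable F (volume.restrict (ball (0:ℂ) R)) ∧
      (∀ᵐ z ∂(volume.restrict (ball (0:ℂ) R)), z • F z - A θ (F z) = ∑' m, x m • u m) ∧
      IntegrableOn (fun z => Real.posLog ‖F z‖) (ball (0:ℂ) R) := by
  have hC0 : 0 ≤ C := (norm_nonneg _).trans (hu 0)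
  filter_upwards [scal lam a x L hL ha hx R] with θ hθ
  obtain ⟨f, G, hf, hG, hae⟩ := hθ
  have hFm : AEStronglyMeasurable (fun z => ∑' m, f m z • u m)
      (volume.restrict (ball (0:ℂ) R)) := by
    refine aestronglyMeasurable_of_tendsto_ae atTop
      (f := fun N z => ∑ m ∈ Finset.range N, f m z • u m) (fun N => ?_) ?_
    · exact Finset.aestronglyMeasurable_fun_sum _ fun m _ => (hf m).smul_const (u m)
    · filter_upwards [hae] with z hz
      exact (summable_smul hu hz.1).hasSum.tendsto_sum_nat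
  refine ⟨fun z => ∑' m, f m z • u m, hFm, ?_, ?_⟩
  · filter_upwards [hae] with z hz
    exact side (A θ) u C hu lam a ha (circleMap 0 1 θ) (hA θ) (fun m => f m z) hz.1 x hx z hz.2.1
  · refine ⟨(measurable_posLog'.comp_aemeasurable hFm.norm.aemeasurable).aestronglyMeasurable, ?_⟩
    rw [hasFiniteIntegral_iff_enorm]
    have h1 : ∫⁻ z in ball (0:ℂ) R, (ENNReal.ofReal (Real.posLog C) + G z) < ⊤ := by
      rw [lintegral_add_left measurable_const, lintegral_const]
      refine ENNReal.add_lt_top.mpr ⟨ENNReal.mul_lt_top ENNReal.ofReal_lt_top ?_,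
        lt_top_iff_ne_top.mpr hG⟩
      rw [Measure.restrict_apply MeasurableSet.univ, univ_inter]
      exact measure_ball_lt_top
    refine lt_of_le_of_lt (lintegral_mono_ae ?_) h1
    filter_upwards [hae] with z hz
    rw [Real.enorm_of_nonneg Real.posLog_nonneg]
    have h2 : ‖∑' m, f m z • u m‖ ≤ C * ∑' m, ‖f m z‖ := by
      rw [← tsum_mul_left]
      refine tsum_of_norm_bounded (hz.1.mul_left C).hasSum fun m => ?_
      rw [norm_smul, mul_comm]
      exact mul_le_mul_of_nonneg_right (hu m) (norm_nonneg _)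
    have h3 : Real.posLog ‖∑' m, f m z • u m‖ ≤
        Real.posLog C + Real.posLog (∑' m, ‖f m z‖) :=
      (Real.posLog_le_posLog (norm_nonneg _) h2).trans Real.posLog_mul
    refine (ENNReal.ofReal_le_ofReal h3).trans ?_
    rw [ENNReal.ofReal_add Real.posLog_nonneg Real.posLog_nonneg]
    gcongr
    exact hz.2.2

section

variable {X : Type} [NormedAddCommGroup X] [NormedSpace ℂ X] [CompleteSpace X]

/-- the transpose of an operator -/
noncomputable def trp (T : X →L[ℂ] X) : (X →L[ℂ] ℂ) →L[ℂ] (X →L[ℂ] ℂ) :=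
  (ContinuousLinearMap.compL ℂ X X ℂ).flip T

theorem trp_apply (T : X →L[ℂ] X) (g : X →L[ℂ] ℂ) : trp T g = g.comp T := rfl

variable (e : ℕ → X) (ε : ℕ → X →L[ℂ] ℂ) (C : ℝ) (he : ∀ n, ‖e n‖ ≤ C) (hε : ∀ n, ‖ε n‖ ≤ C)
  (hbi : ∀ m n, ε m (e n) = if m = n then 1 else 0)
  (D K : X →L[ℂ] X) (lam : ℕ → ℂ) (hD : ∀ n, D (e n) = lam n • e n)
  (hD' : ∀ n, (ε n).comp D = lam n • ε n)
  (k : ℕ → ℕ → ℂ) (hk : Summable fun p : ℕ × ℕ => ‖k p.1 p.2‖)
  (hK : ∀ x, HasSum (fun p : ℕ × ℕ => (k p.1 p.2 * ε p.2 x) • e p.1) (K x))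

include hk in
theorem hcol (n : ℕ) : Summable fun m => ‖k m n‖ :=
  ((Equiv.prodComm ℕ ℕ).summable_iff.mpr hk).prod_factor n

include hk in
theorem hrow (n : ℕ) : Summable fun m => ‖k n m‖ := hk.prod_factor n

include he hbi hk hK in
theorem K_e (n : ℕ) : K (e n) = ∑' m, k m n • e m := by
  have h1 := hK (e n)
  have h2 : HasSum (fun p : ℕ × ℕ => (k p.2 p.1 * ε p.1 (e n)) • e p.2) (K (e n)) :=
    (Equiv.prodComm ℕ ℕ).hasSum_iff.mpr h1
  have h3 : HasSum (fun j => if j = n then ∑' m, k m n • e m else 0) (K (e n)) := by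
    refine h2.prod_fiberwise fun j => ?_
    simp only [hbi]
    by_cases h : j = n
    · subst h
      simp only [if_true, mul_one]
      exact (summable_smul he (hcol k hk j)).hasSum
    · simp only [if_neg h, mul_zero, zero_smul]
      exact hasSum_zero
  exact h3.unique (hasSum_ite_eq n _)

include hε hbi hk hK in
theorem ε_K (n : ℕ) : (ε n).comp K = ∑' m, k n m • ε m := by
  ext x
  have hs : Summable fun m => k n m • ε m := summable_smul hε (hrow k hk n)
  have h0 : (∑' m, k n m • ε m) x = ∑' m, k n m * ε m x := by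
    have := (ContinuousLinearMap.apply ℂ ℂ x).map_tsum hs
    simpa using this
  rw [h0, ContinuousLinearMap.comp_apply]
  have h1 : HasSum (fun p : ℕ × ℕ => ε n ((k p.1 p.2 * ε p.2 x) • e p.1)) (ε n (K x)) :=
    (ε n).hasSum (hK x)
  have h3 : HasSum (fun j => if j = n then ∑' m, k n m * ε m x else 0) (ε n (K x)) := by
    refine h1.prod_fiberwise fun j => ?_
    simp only [map_smul, hbi, smul_eq_mul]
    by_cases h : j = n
    · subst h
      simp only [if_true, mul_one]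
      have hsm : Summable fun m => k j m * ε m x := by
        have := (ContinuousLinearMap.apply ℂ ℂ x).summable hs
        simpa using this
      exact hsm.hasSum
    · have h' : ¬ n = j := fun hh => h hh.symm
      simp only [if_neg h, if_neg h', mul_zero]
      exact hasSum_zero
  exact h3.unique (hasSum_ite_eq n _)

include he hε hbi hD hD' hk hK in
theorem main1 (c₁ c₂ : ℂ) (hc : c₁ ≠ c₂) (h₁ : MapClusterPt c₁ atTop lam)
    (h₂ : MapClusterPt c₂ atTop lam) :
    ∀ᵐ θ ∂(volume.restrict (Ioc (0:ℝ) (2 * Real.pi))),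
      ∃ V : Submodule ℂ X, IsClosed (V : Set X) ∧ V ≠ ⊥ ∧ V ≠ ⊤ ∧
        ∀ Q : X →L[ℂ] X, Q * (D + circleMap 0 1 θ • K) = (D + circleMap 0 1 θ • K) * Q →
          ∀ v ∈ V, Q v ∈ V := by
  have hC0 : 0 ≤ C := (norm_nonneg _).trans (he 0)
  have hL : ∀ m, ‖lam m‖ ≤ C * ‖D‖ * C := by
    intro m
    have h1 : ε m (D (e m)) = lam m := by
      rw [hD m, map_smul, hbi, if_pos rfl, smul_eq_mul, mul_one]
    rw [← h1]
    refine ((ε m).le_opNorm _).trans ?_
    rw [mul_assoc]
    refine mul_le_mul (hε m) ?_ (norm_nonneg _) hC0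
    exact (D.le_opNorm _).trans (mul_le_mul_of_nonneg_left (he m) (norm_nonneg _))
  have hkT : Summable fun p : ℕ × ℕ => ‖k p.2 p.1‖ := (Equiv.prodComm ℕ ℕ).summable_iff.mpr hk
  set ρ₁ : ℕ → ℝ := fun n => C * ∑' j, ‖k n j‖ with hρ₁
  set ρ₂ : ℕ → ℝ := fun n => C * ∑' j, ‖k j n‖ with hρ₂
  have hρ₁0 : Tendsto ρ₁ atTop (𝓝 0) := by
    have := (hk.prod.mul_left C).tendsto_atTop_zero
    exact this
  have hρ₂0 : Tendsto ρ₂ atTop (𝓝 0) := by
    have := (hkT.prod.mul_left C).tendsto_atTop_zero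
    exact this
  obtain ⟨φ₁, hφ₁, hφ₁'⟩ := choose_seq lam ρ₁ hρ₁0 c₁ h₁
  obtain ⟨φ₂, hφ₂, hφ₂'⟩ := choose_seq lam ρ₂ hρ₂0 c₂ h₂
  set R : ℝ := ‖c₁‖ + ‖c₂‖ + 1 with hR
  have hA₁ : ∀ (θ : ℝ) (n : ℕ), (D + circleMap 0 1 θ • K) (e n) =
      lam n • e n + circleMap 0 1 θ • ∑' m, k m n • e m := by
    intro θ n
    rw [ContinuousLinearMap.add_apply, ContinuousLinearMap.smul_apply, hD,
      K_e e ε C he hbi K k hk hK]
  have hA₂ : ∀ (θ : ℝ) (n : ℕ), trp (D + circleMap 0 1 θ • K) (ε n) =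
      lam n • ε n + circleMap 0 1 θ • ∑' m, k n m • ε m := by
    intro θ n
    rw [trp_apply, ContinuousLinearMap.comp_add, hD', ContinuousLinearMap.comp_smul,
      ε_K e ε C hε hbi K k hk hK]
  have r₁ := resolv (fun θ => D + circleMap 0 1 θ • K) e C he lam _ hL k hk hA₁ (xs φ₁)
    (summable_xs hφ₁) R
  have r₂ := resolv (fun θ => trp (D + circleMap 0 1 θ • K)) ε C hε lam _ hL
    (fun m n => k n m) hkT hA₂ (xs φ₂) (summable_xs hφ₂) R
  filter_upwards [r₁, r₂] with θ hr₁ hr₂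
  obtain ⟨f, hf1, hf2, hf3⟩ := hr₁
  obtain ⟨g, hg1, hg2, hg3⟩ := hr₂
  have hκ1 : ‖(circleMap 0 1 θ : ℂ)‖ = 1 := by simp
  refine mloc X (D + circleMap 0 1 θ • K) (∑' m, xs φ₁ m • e m) (∑' m, xs φ₂ m • ε m) c₁ c₂
    (ball 0 R) (ball 0 R) f g hc isOpen_ball isOpen_ball ?_ ?_ hf1 hg1 hf2 hg2 hf3 hg3 ?_ ?_
  · rw [mem_ball_zero_iff, hR]
    have := norm_nonneg c₂
    linarith
  · rw [mem_ball_zero_iff, hR]
    have := norm_nonneg c₁
    linarith
  · rintro ⟨δ, F, hδ, -, hF⟩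
    refine noloc (D + circleMap 0 1 θ • K) e ε C he hε hbi lam ρ₁ ?_ c₁ φ₁ hφ₁ hφ₁' (F c₁)
      (hF c₁ (mem_ball_self hδ))
    intro n v
    have h1 : ε n ((D + circleMap 0 1 θ • K) v) - lam n * ε n v =
        circleMap 0 1 θ * ∑' m, k n m * ε m v := by
      have h2 : ε n (D v) = lam n * ε n v := by
        have := congrArg (fun L : X →L[ℂ] ℂ => L v) (hD' n)
        simpa using this
      have h3 : ε n (K v) = ∑' m, k n m * ε m v := by
        have h4 := congrArg (fun L : X →L[ℂ] ℂ => L v) (ε_K e ε C hε hbi K k hk hK n)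
        have h5 := (ContinuousLinearMap.apply ℂ ℂ v).map_tsum
          (summable_smul hε (hrow k hk n))
        simp only [ContinuousLinearMap.comp_apply] at h4
        rw [h4]
        simpa using h5
      rw [ContinuousLinearMap.add_apply, ContinuousLinearMap.smul_apply, map_add, map_smul,
        h2, h3, smul_eq_mul]
      ring
    rw [h1, norm_mul, hκ1, one_mul, hρ₁]
    have h6 : C * (∑' j, ‖k n j‖) * ‖v‖ = ∑' j, (C * ‖v‖) * ‖k n j‖ := by
      rw [tsum_mul_left]; ring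
    simp only
    rw [h6]
    refine tsum_of_norm_bounded ((hrow k hk n).mul_left _).hasSum fun m => ?_
    rw [norm_mul, mul_comm]
    refine mul_le_mul_of_nonneg_right ?_ (norm_nonneg _)
    exact ((ε m).le_opNorm v).trans (mul_le_mul_of_nonneg_right (hε m) (norm_nonneg _))
  · rintro ⟨δ, G, hδ, -, hG⟩
    refine noloc (trp (D + circleMap 0 1 θ • K)) ε
      (fun n => ContinuousLinearMap.apply ℂ ℂ (e n)) C hε ?_ ?_ lam ρ₂ ?_ c₂ φ₂ hφ₂ hφ₂' (G c₂)
      (hG c₂ (mem_ball_self hδ))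
    · intro m
      refine ContinuousLinearMap.opNorm_le_bound _ hC0 fun w => ?_
      rw [ContinuousLinearMap.apply_apply, mul_comm]
      exact (w.le_opNorm _).trans (mul_le_mul_of_nonneg_left (he m) (norm_nonneg _))
    · intro m n
      rw [ContinuousLinearMap.apply_apply, hbi]
      by_cases h : m = n
      · rw [if_pos h, if_pos h.symm]
      · rw [if_neg h, if_neg fun h' => h h'.symm]
    · intro n w
      rw [ContinuousLinearMap.apply_apply, ContinuousLinearMap.apply_apply, trp_apply,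
        ContinuousLinearMap.comp_apply]
      have h1 : w ((D + circleMap 0 1 θ • K) (e n)) - lam n * w (e n) =
          circleMap 0 1 θ * ∑' m, k m n * w (e m) := by
        rw [hA₁, map_add, map_smul, map_smul, w.map_tsum (summable_smul he (hcol k hk n))]
        simp only [map_smul, smul_eq_mul]
        ring
      rw [h1, norm_mul, hκ1, one_mul, hρ₂]
      have h6 : C * (∑' j, ‖k j n‖) * ‖w‖ = ∑' j, (C * ‖w‖) * ‖k j n‖ := by
        rw [tsum_mul_left]; ring
      simp only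
      rw [h6]
      refine tsum_of_norm_bounded ((hcol k hk n).mul_left _).hasSum fun m => ?_
      rw [norm_mul, mul_comm]
      refine mul_le_mul_of_nonneg_right ?_ (norm_nonneg _)
      refine (w.le_opNorm (e m)).trans ?_
      rw [mul_comm]
      exact mul_le_mul_of_nonneg_right (he m) (norm_nonneg _)

end

end Pool.Agent.Q62.RP
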