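import Mathlib

/-! Determinants of `1 - A` for matrices with small entry sums. -/

set_option autoImplicit false

namespace Pool.Agent.Q62.RP

open Matrix Finset

/-- the determinant is at most the product of the row sums -/
theorem det_le {n : ℕ} (M : Matrix (Fin n) (Fin n) ℂ) : ‖M.det‖ ≤ ∏ i, ∑ j, ‖M i j‖ := by
  rw [← Matrix.det_transpose, Matrix.det_apply]
  refine (norm_sum_le _ _).trans ?_
  rw [Finset.prod_univ_sum, Fintype.piFinset_univ]
  have h1 : ∑ σ : Equiv.Perm (Fin n), ‖Equiv.Perm.sign σ • ∏ i, Mᵀ (σ i) i‖ =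
      ∑ σ : Equiv.Perm (Fin n), ∏ i, ‖M i ((σ : Fin n → Fin n) i)‖ := by
    refine Finset.sum_congr rfl fun σ _ => ?_
    rw [show Equiv.Perm.sign σ • ∏ i, Mᵀ (σ i) i =
      ((Equiv.Perm.sign σ : ℤ) : ℂ) * ∏ i, Mᵀ (σ i) i from by
        rw [Units.smul_def, zsmul_eq_mul], norm_mul, norm_prod]
    have h2 : ‖((Equiv.Perm.sign σ : ℤ) : ℂ)‖ = 1 := by
      rcases Int.units_eq_one_or (Equiv.Perm.sign σ) with h | h <;> rw [h] <;> simp
    rw [h2, one_mul]
    rfl
  rw [h1]
  have hinj : Function.Injective (fun σ : Equiv.Perm (Fin n) => (σ : Fin n → Fin n)) :=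
    DFunLike.coe_injective
  rw [← Finset.sum_image (f := fun φ : Fin n → Fin n => ∏ i, ‖M i (φ i)‖)
    (s := (Finset.univ : Finset (Equiv.Perm (Fin n)))) (g := fun σ => (σ : Fin n → Fin n))
    (fun a _ b _ h => hinj h)]
  exact Finset.sum_le_univ_sum_of_nonneg fun φ => Finset.prod_nonneg fun i _ => norm_nonneg _

/-- the sum of the absolute values of the entries -/
noncomputable def ns {n : ℕ} (A : Matrix (Fin n) (Fin n) ℂ) : ℝ := ∑ i, ∑ j, ‖A i j‖

theorem ns_nonneg {n : ℕ} (A : Matrix (Fin n) (Fin n) ℂ) : 0 ≤ ns A :=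
  Finset.sum_nonneg fun _ _ => Finset.sum_nonneg fun _ _ => norm_nonneg _

theorem row_le {n : ℕ} (A : Matrix (Fin n) (Fin n) ℂ) (i : Fin n) :
    ∑ j, ‖(1 - A) i j‖ ≤ 1 + ∑ j, ‖A i j‖ := by
  have h1 : ∀ j, ‖(1 - A) i j‖ ≤ (if j = i then 1 else 0) + ‖A i j‖ := by
    intro j
    rw [Matrix.sub_apply]
    refine (norm_sub_le _ _).trans ?_
    gcongr
    rw [Matrix.one_apply]
    split_ifs with h h' h' <;> simp_all
  refine (Finset.sum_le_sum fun j _ => h1 j).trans ?_
  rw [Finset.sum_add_distrib]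
  simp

theorem prod_le_exp {ι : Type} (s : Finset ι) (σ : ι → ℝ) (h : ∀ i ∈ s, 0 ≤ σ i) :
    ∏ i ∈ s, (1 + σ i) ≤ Real.exp (∑ i ∈ s, σ i) := by
  rw [Real.exp_sum]
  refine Finset.prod_le_prod (fun i hi => by have := h i hi; positivity) fun i _ => ?_
  rw [add_comm]
  exact Real.add_one_le_exp _

theorem det_one_sub_le {n : ℕ} (A : Matrix (Fin n) (Fin n) ℂ) :
    ‖(1 - A).det‖ ≤ Real.exp (ns A) := by
  refine (det_le _).trans ?_
  refine (Finset.prod_le_prod (fun i _ => Finset.sum_nonneg fun j _ => norm_nonneg _)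
    fun i _ => row_le A i).trans ?_
  exact prod_le_exp _ _ fun i _ => Finset.sum_nonneg fun j _ => norm_nonneg _

theorem adj_le {n : ℕ} (A : Matrix (Fin n) (Fin n) ℂ) (a b : Fin n) :
    ‖(1 - A).adjugate a b‖ ≤ Real.exp (ns A) := by
  rw [Matrix.adjugate_apply]
  refine (det_le _).trans ?_
  have h1 : ∀ i, ∑ j, ‖((1 - A).updateRow b (Pi.single a 1)) i j‖ ≤ 1 + ∑ j, ‖A i j‖ := by
    intro i
    by_cases h : i = b
    · subst h
      have : ∑ j, ‖((1 - A).updateRow i (Pi.single a 1)) i j‖ = 1 := by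
        rw [Finset.sum_eq_single a]
        · simp
        · intro j _ hj
          simp [Pi.single_apply, hj]
        · simp
      rw [this]
      have : 0 ≤ ∑ j, ‖A i j‖ := Finset.sum_nonneg fun j _ => norm_nonneg _
      linarith
    · have : ∀ j, ((1 - A).updateRow b (Pi.single a 1)) i j = (1 - A) i j := fun j => by
        rw [Matrix.updateRow_ne h]
      simp only [this]
      exact row_le A i
  refine (Finset.prod_le_prod (fun i _ => Finset.sum_nonneg fun j _ => norm_nonneg _)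
    fun i _ => h1 i).trans ?_
  exact prod_le_exp _ _ fun i _ => Finset.sum_nonneg fun j _ => norm_nonneg _

/-- solutions of `(1 - A) h = r` are bounded -/
theorem sol_le {n : ℕ} (A : Matrix (Fin n) (Fin n) ℂ) (hd : (1 - A).det ≠ 0) (h r : Fin n → ℂ)
    (hr : (1 - A) *ᵥ h = r) (i : Fin n) :
    ‖h i‖ ≤ Real.exp (ns A) / ‖(1 - A).det‖ * ∑ j, ‖r j‖ := by
  have h1 : (1 - A).adjugate *ᵥ r = (1 - A).det • h := by
    rw [← hr, Matrix.mulVec_mulVec, Matrix.adjugate_mul, Matrix.smul_mulVec, Matrix.one_mulVec]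
  have h2 : (1 - A).det * h i = ∑ j, (1 - A).adjugate i j * r j := by
    have := congrFun h1 i
    rw [Pi.smul_apply, smul_eq_mul] at this
    rw [← this]
    rfl
  have h3 : ‖(1 - A).det‖ * ‖h i‖ ≤ Real.exp (ns A) * ∑ j, ‖r j‖ := by
    rw [← norm_mul, h2, Finset.mul_sum]
    refine (norm_sum_le _ _).trans (Finset.sum_le_sum fun j _ => ?_)
    rw [norm_mul]
    exact mul_le_mul_of_nonneg_right (adj_le A i j) (norm_nonneg _)
  have h4 : 0 < ‖(1 - A).det‖ := norm_pos_iff.mpr hd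
  rw [div_mul_eq_mul_div, le_div_iff₀ h4, mul_comm ‖h i‖]
  exact h3

/-- the truncation of an infinite matrix -/
def tr (B : ℕ → ℕ → ℂ) (n : ℕ) : Matrix (Fin n) (Fin n) ℂ := fun i j => B i j

theorem ns_tr_le (B : ℕ → ℕ → ℂ) (hB : Summable fun p : ℕ × ℕ => ‖B p.1 p.2‖) (n : ℕ) :
    ns (tr B n) ≤ ∑' p : ℕ × ℕ, ‖B p.1 p.2‖ := by
  have h1 : ns (tr B n) = ∑ p ∈ (Finset.univ : Finset (Fin n × Fin n)).map
      ⟨fun p : Fin n × Fin n => ((p.1 : ℕ), (p.2 : ℕ)), by
        rintro ⟨a, b⟩ ⟨c, d⟩ h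
        simp only [Prod.mk.injEq] at h
        exact Prod.ext (Fin.ext h.1) (Fin.ext h.2)⟩, ‖B p.1 p.2‖ := by
    rw [Finset.sum_map]
    unfold ns tr
    rw [Fintype.sum_prod_type]
    rfl
  rw [h1]
  exact hB.sum_le_tsum _ fun p _ => norm_nonneg _

/-- consecutive truncations -/
theorem det_succ (B : ℕ → ℕ → ℂ) (S : ℝ) (n : ℕ) (hS : ns (tr B (n + 1)) ≤ S) :
    ‖(1 - tr B (n + 1)).det - (1 - tr B n).det‖ ≤
      Real.exp S * ∑ i ∈ Finset.range (n + 1), ‖B i n‖ := by
  set M : Matrix (Fin (n + 1)) (Fin (n + 1)) ℂ := 1 - tr B (n + 1) with hM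
  rw [Matrix.det_succ_column M (Fin.last n), Fin.sum_univ_castSucc]
  have hminor : M.submatrix (Fin.last n).succAbove (Fin.last n).succAbove = 1 - tr B n := by
    ext i j
    simp only [Matrix.submatrix_apply, Fin.succAbove_last, hM, Matrix.sub_apply, Matrix.one_apply,
      tr, Fin.castSucc_inj, Fin.val_castSucc]
  have hml : ∀ i : Fin (n + 1),
      ‖(M.submatrix i.succAbove (Fin.last n).succAbove).det‖ ≤ Real.exp S := by
    intro i
    refine (det_le _).trans ?_
    have h1 : ∀ a : Fin n, ∑ b, ‖(M.submatrix i.succAbove (Fin.last n).succAbove) a b‖ ≤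
        1 + ∑ j, ‖tr B (n + 1) (i.succAbove a) j‖ := by
      intro a
      refine le_trans ?_ (row_le (tr B (n + 1)) (i.succAbove a))
      rw [Fin.sum_univ_castSucc]
      simp only [Matrix.submatrix_apply, Fin.succAbove_last]
      rw [← hM]
      have : 0 ≤ ‖M (i.succAbove a) (Fin.last n)‖ := norm_nonneg _
      linarith
    refine (Finset.prod_le_prod (fun i _ => Finset.sum_nonneg fun j _ => norm_nonneg _)
      fun a _ => h1 a).trans ?_
    refine (prod_le_exp _ _ fun a _ => Finset.sum_nonneg fun j _ => norm_nonneg _).trans ?_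
    refine Real.exp_le_exp.mpr (le_trans ?_ hS)
    unfold ns
    rw [Fin.sum_univ_succAbove _ i]
    have : 0 ≤ ∑ j, ‖tr B (n + 1) i j‖ := Finset.sum_nonneg fun j _ => norm_nonneg _
    linarith
  have hE : (0 : ℝ) < Real.exp S := Real.exp_pos _
  have hdn : ‖(1 - tr B n).det‖ ≤ Real.exp S := by
    rw [← hminor]; exact hml _
  have hlast : (-1 : ℂ) ^ (((Fin.last n : Fin (n + 1)) : ℕ) + ((Fin.last n : Fin (n + 1)) : ℕ)) *
      M (Fin.last n) (Fin.last n) *
      (M.submatrix (Fin.last n).succAbove (Fin.last n).succAbove).det - (1 - tr B n).det =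
      -(B n n * (1 - tr B n).det) := by
    rw [hminor, ← two_mul, pow_mul]
    have : M (Fin.last n) (Fin.last n) = 1 - B n n := by
      simp [hM, tr]
    rw [this]
    simp
    ring
  rw [add_sub_assoc, hlast, Finset.sum_range_succ, mul_add]
  refine (norm_add_le _ _).trans (add_le_add ?_ ?_)
  · refine (norm_sum_le _ _).trans ?_
    rw [Finset.mul_sum, ← Fin.sum_univ_eq_sum_range (fun i => Real.exp S * ‖B i n‖) n]
    refine Finset.sum_le_sum fun i _ => ?_
    rw [norm_mul, norm_mul, norm_pow, norm_neg, norm_one, one_pow, one_mul]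
    have : M i.castSucc (Fin.last n) = -B i n := by
      have hne : i.castSucc ≠ Fin.last n := (Fin.castSucc_lt_last i).ne
      simp [hM, tr, Matrix.one_apply, hne]
    rw [this, norm_neg, mul_comm]
    exact mul_le_mul_of_nonneg_right (hml _) (norm_nonneg _)
  · rw [norm_neg, norm_mul, mul_comm]
    exact mul_le_mul_of_nonneg_right hdn (norm_nonneg _)

end Pool.Agent.Q62.RP
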