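import Pool.Agent.Q62.RP.Det
import Pool.Agent.Y271.CO.Poly

/-! Jensen's inequality for `det (1 - κ A)`. -/

set_option autoImplicit false

namespace Pool.Agent.Q62.RP

open MeasureTheory Set Metric Filter Topology Matrix Polynomial

/-- `-log`, cut at zero, infinite at the origin -/
noncomputable def Lam (t : ℝ) : ENNReal := if t = 0 then ⊤ else ENNReal.ofReal (-Real.log t)

theorem measurable_Lam : Measurable Lam := by
  unfold Lam
  refine Measurable.ite (measurableSet_singleton 0) measurable_const ?_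
  exact ENNReal.measurable_ofReal.comp Real.measurable_log.neg

theorem logM_nonneg (p : ℂ[X]) (h : p.eval 0 = 1) : 0 ≤ p.logMahlerMeasure := by
  have hp : p ≠ 0 := by rintro rfl; simp at h
  have h1 := Polynomial.norm_coeff_le_choose_mul_mahlerMeasure 0 p
  rw [Polynomial.coeff_zero_eq_eval_zero, h, norm_one, Nat.choose_zero_right, Nat.cast_one,
    one_mul] at h1
  rw [Polynomial.logMahlerMeasure_eq_log_MahlerMeasure]
  exact Real.log_nonneg h1

theorem ae_ne (p : ℂ[X]) (hp : p ≠ 0) :
    ∀ᵐ θ ∂(volume.restrict (Ioc (0:ℝ) (2 * Real.pi))), p.eval (circleMap 0 1 θ) ≠ 0 := by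
  apply ae_restrict_of_ae
  rw [ae_iff]
  have h1 : {θ : ℝ | ¬ p.eval (circleMap 0 1 θ) ≠ 0} = circleMap 0 1 ⁻¹' {z | p.eval z = 0} := by
    ext θ; simp
  rw [h1]
  have h2 : Set.Countable {z : ℂ | p.eval z = 0} := by
    refine (Set.Finite.subset p.roots.toFinset.finite_toSet ?_).countable
    intro z hz
    simp only [Finset.mem_coe, Multiset.mem_toFinset]
    exact (Polynomial.mem_roots hp).2 hz
  exact (h2.preimage_circleMap 0 one_ne_zero).measure_zero _

theorem lint_poly (p : ℂ[X]) (h : p.eval 0 = 1) (S : ℝ)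
    (hS : ∀ κ : ℂ, ‖κ‖ = 1 → ‖p.eval κ‖ ≤ Real.exp S) (hS0 : 0 ≤ S) :
    ∫⁻ θ in Ioc (0:ℝ) (2 * Real.pi), Lam ‖p.eval (circleMap 0 1 θ)‖ ≤
      ENNReal.ofReal (2 * Real.pi * S) := by
  have hp : p ≠ 0 := by rintro rfl; simp at h
  have hpi := Real.pi_pos
  have h1 : ∫⁻ θ in Ioc (0:ℝ) (2 * Real.pi), Lam ‖p.eval (circleMap 0 1 θ)‖ =
      ∫⁻ θ in Ioc (0:ℝ) (2 * Real.pi),
        ENNReal.ofReal (-Real.log ‖p.eval (circleMap 0 1 θ)‖) := by
    refine lintegral_congr_ae ?_
    filter_upwards [ae_ne p hp] with θ hθ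
    unfold Lam
    rw [if_neg (norm_ne_zero_iff.mpr hθ)]
  rw [h1]
  have hint : CircleIntegrable (fun z => Real.log ‖p.eval z‖) 0 1 := by
    apply MeromorphicOn.circleIntegrable_log_norm
    intro z _
    exact (AnalyticAt.aeval_polynomial analyticAt_id p).meromorphicAt
  have hint2 : IntegrableOn (fun θ => Real.log ‖p.eval (circleMap 0 1 θ)‖)
      (Ioc (0:ℝ) (2 * Real.pi)) := by
    have := hint
    unfold CircleIntegrable at this
    rwa [intervalIntegrable_iff_integrableOn_Ioc_of_le (by positivity)] at this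
  have hav : 0 ≤ ∫ θ in Ioc (0:ℝ) (2 * Real.pi), Real.log ‖p.eval (circleMap 0 1 θ)‖ := by
    have h2 := logM_nonneg p h
    rw [Polynomial.logMahlerMeasure_def, Real.circleAverage_def,
      intervalIntegral.integral_of_le (by positivity), smul_eq_mul] at h2
    exact nonneg_of_mul_nonneg_right h2 (by positivity)
  have hle : ∀ θ : ℝ, Real.log ‖p.eval (circleMap 0 1 θ)‖ ≤ S := by
    intro θ
    by_cases h0 : ‖p.eval (circleMap 0 1 θ)‖ = 0
    · rw [h0, Real.log_zero]; exact hS0
    · rw [Real.log_le_iff_le_exp (lt_of_le_of_ne (norm_nonneg _) (Ne.symm h0))]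
      exact hS _ (by simp)
  calc ∫⁻ θ in Ioc (0:ℝ) (2 * Real.pi), ENNReal.ofReal (-Real.log ‖p.eval (circleMap 0 1 θ)‖)
      ≤ ∫⁻ θ in Ioc (0:ℝ) (2 * Real.pi),
        ENNReal.ofReal (S - Real.log ‖p.eval (circleMap 0 1 θ)‖) := by
        refine lintegral_mono fun θ => ENNReal.ofReal_le_ofReal ?_
        linarith
    _ = ENNReal.ofReal (∫ θ in Ioc (0:ℝ) (2 * Real.pi),
        (S - Real.log ‖p.eval (circleMap 0 1 θ)‖)) := by
        rw [ofReal_integral_eq_lintegral_ofReal]
        · exact (integrable_const S).sub hint2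
        · exact Eventually.of_forall fun θ => by
            have := hle θ
            simp only [Pi.zero_apply, sub_nonneg]
            exact this
    _ ≤ ENNReal.ofReal (2 * Real.pi * S) := by
        apply ENNReal.ofReal_le_ofReal
        rw [integral_sub (integrable_const S) hint2]
        simp only [integral_const, MeasurableSet.univ, measureReal_restrict_apply, univ_inter,
          Real.volume_real_Ioc, sub_zero, smul_eq_mul]
        rw [max_eq_left (by positivity)]
        linarith

/-- Jensen's inequality for the truncated determinants -/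
theorem lint_det {n : ℕ} (A : Matrix (Fin n) (Fin n) ℂ) (S : ℝ) (hS : ns A ≤ S) :
    ∫⁻ θ in Ioc (0:ℝ) (2 * Real.pi), Lam ‖(1 - circleMap 0 1 θ • A).det‖ ≤
      ENNReal.ofReal (2 * Real.pi * S) := by
  have h := lint_poly A.charpolyRev Matrix.eval_charpolyRev S ?_ ((ns_nonneg A).trans hS)
  · simpa only [Pool.Agent.Y271.CO.eval_rev] using h
  · intro κ hκ
    rw [Pool.Agent.Y271.CO.eval_rev]
    refine (det_one_sub_le _).trans (Real.exp_le_exp.mpr ?_)
    have : ns (κ • A) = ns A := by
      unfold ns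
      simp [Matrix.smul_apply, norm_mul, hκ]
    rw [this]
    exact hS

end Pool.Agent.Q62.RP
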