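import Pool.Agent.Q62.RP.Solve
import Pool.Agent.H761R2.SV.Pomp

/-! The perturbed diagonal system for almost every phase. -/

set_option autoImplicit false

namespace Pool.Agent.Q62.RP

open MeasureTheory Set Metric Filter Topology Matrix
open scoped ENNReal

noncomputable def Cst (R : ℝ) : ENNReal := ∫⁻ w in ball (0:ℂ) R, ‖(w⁻¹ : ℂ)‖ₑ

theorem Cst_ne_top (R : ℝ) : Cst R ≠ ⊤ := by
  have h := (Pool.Agent.H761R2.SV.integrableOn_norm_inv R).2
  rw [hasFiniteIntegral_iff_enorm] at h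
  refine (lt_of_le_of_lt (lintegral_mono fun w => ?_) h).ne
  rw [Real.enorm_of_nonneg (by positivity), ← norm_inv, ofReal_norm]

theorem lint_inv_le (R L : ℝ) (a : ℂ) (ha : ‖a‖ ≤ L) :
    ∫⁻ z in ball (0:ℂ) R, ‖((z - a)⁻¹ : ℂ)‖ₑ ≤ Cst (R + L) := by
  have h1 : ball (0:ℂ) R ⊆ (fun z => z - a) ⁻¹' ball (0:ℂ) (R + L) := by
    intro z hz
    rw [mem_ball_zero_iff] at hz
    rw [mem_preimage, mem_ball_zero_iff]
    exact lt_of_le_of_lt (norm_sub_le _ _) (by linarith)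
  refine (lintegral_mono_set h1).trans ?_
  have hm : Measurable fun w : ℂ => ‖(w⁻¹ : ℂ)‖ₑ := by fun_prop
  exact ((measurePreserving_sub_right volume a).setLIntegral_comp_preimage
    measurableSet_ball hm).le

theorem meas_term (lam : ℕ → ℂ) {ι : Type} (a : ι → ℂ) (q : ι → ℕ) (i : ι) :
    Measurable fun z : ℂ => ‖a i * (z - lam (q i))⁻¹‖ₑ := by fun_prop

theorem sum_ne_top (lam : ℕ → ℂ) (L : ℝ) (hL : ∀ m, ‖lam m‖ ≤ L) {ι : Type} [Countable ι]
    (a : ι → ℂ) (q : ι → ℕ) (ha : Summable fun i => ‖a i‖) (R : ℝ) :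
    ∫⁻ z in ball (0:ℂ) R, ∑' i, ‖a i * (z - lam (q i))⁻¹‖ₑ ≠ ⊤ := by
  rw [lintegral_tsum fun i => (meas_term lam a q i).aemeasurable]
  have h1 : ∀ i, ∫⁻ z in ball (0:ℂ) R, ‖a i * (z - lam (q i))⁻¹‖ₑ ≤ ‖a i‖ₑ * Cst (R + L) := by
    intro i
    simp only [enorm_mul]
    rw [lintegral_const_mul _ (by fun_prop)]
    exact mul_le_mul_right (lint_inv_le R L _ (hL _)) _
  refine ne_top_of_le_ne_top ?_ (ENNReal.tsum_le_tsum h1)
  rw [ENNReal.tsum_mul_right]
  refine ENNReal.mul_ne_top ?_ (Cst_ne_top _)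
  have h2 : ∑' i, ‖a i‖ₑ = ENNReal.ofReal (∑' i, ‖a i‖) := by
    rw [ENNReal.ofReal_tsum_of_nonneg (fun _ => norm_nonneg _) ha]
    simp only [ofReal_norm]
  rw [h2]
  exact ENNReal.ofReal_ne_top

theorem summable_of_enorm {ι : Type} (a : ι → ℂ) (h : ∑' i, ‖a i‖ₑ ≠ ⊤) :
    (Summable fun i => ‖a i‖) ∧ ENNReal.ofReal (∑' i, ‖a i‖) = ∑' i, ‖a i‖ₑ := by
  have h1 : Summable fun i => ‖a i‖ := by
    have := ENNReal.summable_toReal h
    simpa only [toReal_enorm] using this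
  refine ⟨h1, ?_⟩
  rw [ENNReal.ofReal_tsum_of_nonneg (fun _ => norm_nonneg _) h1]
  simp only [ofReal_norm]

theorem meas_det {α : Type} [MeasurableSpace α] {n : ℕ} (M : α → Matrix (Fin n) (Fin n) ℂ)
    (h : ∀ i j, Measurable fun z => M z i j) : Measurable fun z => (M z).det := by
  simp only [Matrix.det_apply]
  refine Finset.measurable_fun_sum _ fun σ _ => ?_
  have h1 : Measurable fun z => ∏ i, M z (σ i) i := Finset.measurable_fun_prod _ fun i _ => h _ _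
  exact h1.const_smul _

variable (lam : ℕ → ℂ) (k : ℕ → ℕ → ℂ) (x : ℕ → ℂ)

/-- the matrix of the perturbed system -/
noncomputable def Bz (κ z : ℂ) (m j : ℕ) : ℂ := κ * (k m j * (z - lam m)⁻¹)

noncomputable def bz (z : ℂ) (m : ℕ) : ℂ := x m * (z - lam m)⁻¹

noncomputable def Wz (κ z : ℂ) : ENNReal :=
  liminf (fun N => Lam ‖(1 - tr (Bz lam k κ z) N).det‖) atTop

theorem meas_entry (N : ℕ) (i j : Fin N) :
    Measurable fun p : ℂ × ℂ => (1 - tr (Bz lam k p.1 p.2) N) i j := by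
  simp only [Matrix.sub_apply, tr, Bz]
  fun_prop

theorem meas_D (N : ℕ) : Measurable fun p : ℂ × ℂ => (1 - tr (Bz lam k p.1 p.2) N).det :=
  meas_det _ fun i j => meas_entry lam k N i j

theorem meas_LD (N : ℕ) :
    Measurable fun p : ℂ × ℂ => Lam ‖(1 - tr (Bz lam k p.1 p.2) N).det‖ := by
  have h1 : Measurable fun p : ℂ × ℂ => ‖(1 - tr (Bz lam k p.1 p.2) N).det‖ :=
    (meas_D lam k N).norm
  exact Measurable.comp (g := Lam) measurable_Lam h1

theorem meas_W : Measurable fun p : ℂ × ℂ => Wz lam k p.1 p.2 := by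
  unfold Wz
  exact Measurable.liminf fun N => meas_LD lam k N

theorem meas_W_comp {α : Type} [MeasurableSpace α] (u v : α → ℂ) (hu : Measurable u)
    (hv : Measurable v) : Measurable fun a => Wz lam k (u a) (v a) := by
  have h := Measurable.comp (g := fun p : ℂ × ℂ => Wz lam k p.1 p.2) (meas_W lam k)
    (hu.prodMk hv)
  exact h

theorem meas_LD_comp {α : Type} [MeasurableSpace α] (u v : α → ℂ) (hu : Measurable u)
    (hv : Measurable v) (N : ℕ) :
    Measurable fun a => Lam ‖(1 - tr (Bz lam k (u a) (v a)) N).det‖ := by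
  have h := Measurable.comp
    (g := fun p : ℂ × ℂ => Lam ‖(1 - tr (Bz lam k p.1 p.2) N).det‖) (meas_LD lam k N)
    (hu.prodMk hv)
  exact h

theorem meas_D_comp {α : Type} [MeasurableSpace α] (u v : α → ℂ) (hu : Measurable u)
    (hv : Measurable v) (N : ℕ) :
    Measurable fun a => (1 - tr (Bz lam k (u a) (v a)) N).det := by
  have h := Measurable.comp
    (g := fun p : ℂ × ℂ => (1 - tr (Bz lam k p.1 p.2) N).det) (meas_D lam k N)
    (hu.prodMk hv)
  exact h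

theorem meas_entry_comp {α : Type} [MeasurableSpace α] (u v : α → ℂ) (hu : Measurable u)
    (hv : Measurable v) (N : ℕ) (i j : Fin N) :
    Measurable fun a => (1 - tr (Bz lam k (u a) (v a)) N) i j := by
  have h := Measurable.comp
    (g := fun p : ℂ × ℂ => (1 - tr (Bz lam k p.1 p.2) N) i j) (meas_entry lam k N i j)
    (hu.prodMk hv)
  exact h

theorem meas_fN (κ : ℂ) (N m : ℕ) :
    Measurable fun z => fN (Bz lam k κ z) (bz lam x z) N m := by
  unfold fN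
  by_cases hm : m < N
  · simp only [dif_pos hm]
    have h1 : Measurable fun z => (1 - tr (Bz lam k κ z) N).det :=
      meas_D_comp lam k (fun _ => κ) (fun z => z) measurable_const measurable_id N
    refine h1.inv.mul ?_
    refine Finset.measurable_fun_sum _ fun j _ => ?_
    refine Measurable.mul ?_ (by unfold bz; fun_prop)
    simp only [Matrix.adjugate_apply]
    refine meas_det _ fun a b => ?_
    by_cases hab : a = j
    · subst hab
      simp only [Matrix.updateRow_self]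
      exact measurable_const
    · simp only [Matrix.updateRow_ne hab]
      exact meas_entry_comp lam k (fun _ => κ) (fun z => z) measurable_const measurable_id N a b
  · simp only [dif_neg hm]
    exact measurable_const

theorem tr_Bz (κ z : ℂ) (N : ℕ) :
    tr (Bz lam k κ z) N = κ • tr (fun m j => k m j * (z - lam m)⁻¹) N := by
  ext i j
  rfl

theorem lint_W1 (z : ℂ)
    (hs : Summable fun p : ℕ × ℕ => ‖k p.1 p.2 * (z - lam p.1)⁻¹‖) :
    ∫⁻ θ in Ioc (0:ℝ) (2 * Real.pi), Wz lam k (circleMap 0 1 θ) z ≤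
      ENNReal.ofReal (2 * Real.pi * ∑' p : ℕ × ℕ, ‖k p.1 p.2 * (z - lam p.1)⁻¹‖) := by
  have hmθ : ∀ N, Measurable fun θ : ℝ => Lam ‖(1 - tr (Bz lam k (circleMap 0 1 θ) z) N).det‖ :=
    fun N => meas_LD_comp lam k (fun θ => circleMap 0 1 θ) (fun _ => z)
      (continuous_circleMap 0 1).measurable measurable_const N
  have h1 : ∫⁻ θ in Ioc (0:ℝ) (2 * Real.pi),
      liminf (fun N => Lam ‖(1 - tr (Bz lam k (circleMap 0 1 θ) z) N).det‖) atTop ≤
      liminf (fun N => ∫⁻ θ in Ioc (0:ℝ) (2 * Real.pi),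
        Lam ‖(1 - tr (Bz lam k (circleMap 0 1 θ) z) N).det‖) atTop :=
    lintegral_liminf_le hmθ
  have h2 : ∀ N, ∫⁻ θ in Ioc (0:ℝ) (2 * Real.pi),
      Lam ‖(1 - tr (Bz lam k (circleMap 0 1 θ) z) N).det‖ ≤
      ENNReal.ofReal (2 * Real.pi * ∑' p : ℕ × ℕ, ‖k p.1 p.2 * (z - lam p.1)⁻¹‖) := by
    intro N
    simp only [tr_Bz]
    exact lint_det _ _ (ns_tr_le (fun m j => k m j * (z - lam m)⁻¹) hs N)
  have h3 := liminf_le_liminf (f := atTop) (u := fun N => ∫⁻ θ in Ioc (0:ℝ) (2 * Real.pi),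
      Lam ‖(1 - tr (Bz lam k (circleMap 0 1 θ) z) N).det‖)
      (v := fun _ : ℕ => ENNReal.ofReal (2 * Real.pi * ∑' p : ℕ × ℕ, ‖k p.1 p.2 * (z - lam p.1)⁻¹‖))
      (Eventually.of_forall h2)
  rw [liminf_const] at h3
  unfold Wz
  exact h1.trans h3

theorem lint_W (R : ℝ) (L : ℝ) (hL : ∀ m, ‖lam m‖ ≤ L)
    (hk : Summable fun p : ℕ × ℕ => ‖k p.1 p.2‖) :
    ∫⁻ z in ball (0:ℂ) R, ∫⁻ θ in Ioc (0:ℝ) (2 * Real.pi), Wz lam k (circleMap 0 1 θ) z ≠ ⊤ := by
  have hne := sum_ne_top lam L hL (fun p : ℕ × ℕ => k p.1 p.2) (fun p => p.1) hk R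
  have hmS : Measurable fun z : ℂ => ∑' p : ℕ × ℕ, ‖k p.1 p.2 * (z - lam p.1)⁻¹‖ₑ :=
    Measurable.ennreal_tsum fun p => by fun_prop
  have hae := ae_lt_top hmS hne
  have h1 : ∫⁻ z in ball (0:ℂ) R, ENNReal.ofReal (2 * Real.pi) *
      ∑' p : ℕ × ℕ, ‖k p.1 p.2 * (z - lam p.1)⁻¹‖ₑ ≠ ⊤ := by
    rw [lintegral_const_mul _ hmS]
    exact ENNReal.mul_ne_top ENNReal.ofReal_ne_top hne
  refine ne_top_of_le_ne_top h1 (lintegral_mono_ae ?_)
  filter_upwards [hae] with z hz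
  obtain ⟨hs, he⟩ := summable_of_enorm (fun p : ℕ × ℕ => k p.1 p.2 * (z - lam p.1)⁻¹) hz.ne
  refine (lint_W1 lam k z hs).trans ?_
  rw [ENNReal.ofReal_mul (by positivity), he]

end Pool.Agent.Q62.RP
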