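import Pool.Agent.Q62.RP.Jen

/-! Solving `f = b + B f` for an infinite matrix with summable entries. -/

set_option autoImplicit false

namespace Pool.Agent.Q62.RP

open MeasureTheory Set Metric Filter Topology Matrix

/-- solution of the truncated system, extended by zero -/
noncomputable def fN (B : ℕ → ℕ → ℂ) (b : ℕ → ℂ) (N m : ℕ) : ℂ :=
  if h : m < N then ((1 - tr B N).det)⁻¹ * ∑ j : Fin N, (1 - tr B N).adjugate ⟨m, h⟩ j * b j
  else 0

theorem fN_of_le (B : ℕ → ℕ → ℂ) (b : ℕ → ℂ) {N m : ℕ} (h : N ≤ m) : fN B b N m = 0 := by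
  unfold fN; rw [dif_neg (not_lt.mpr h)]

theorem fN_eq (B : ℕ → ℕ → ℂ) (b : ℕ → ℂ) (N : ℕ) (hd : (1 - tr B N).det ≠ 0) (m : ℕ)
    (hm : m < N) : fN B b N m = b m + ∑ j ∈ Finset.range N, B m j * fN B b N j := by
  have h1 : (fun i : Fin N => fN B b N i) =
      ((1 - tr B N).det)⁻¹ • ((1 - tr B N).adjugate *ᵥ fun j : Fin N => b j) := by
    funext i
    unfold fN
    rw [dif_pos i.2]
    rfl
  have h2 : (1 - tr B N) *ᵥ (fun i : Fin N => fN B b N i) = fun j : Fin N => b j := by
    rw [h1, Matrix.mulVec_smul, Matrix.mulVec_mulVec, Matrix.mul_adjugate, Matrix.smul_mulVec,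
      Matrix.one_mulVec, smul_smul, inv_mul_cancel₀ hd, one_smul]
  have h3 := congrFun h2 ⟨m, hm⟩
  rw [Matrix.sub_mulVec, Matrix.one_mulVec, Pi.sub_apply, sub_eq_iff_eq_add] at h3
  have h4 : (tr B N *ᵥ fun i : Fin N => fN B b N i) ⟨m, hm⟩ =
      ∑ j : Fin N, B m j * fN B b N j := rfl
  rw [h4, Fin.sum_univ_eq_sum_range (fun j => B m j * fN B b N j) N] at h3
  exact h3

theorem one_add_mul_exp_le (S X : ℝ) (hX : 0 ≤ X) :
    1 + S * Real.exp X ≤ Real.exp (S + X) := by
  have h1 : (1:ℝ) ≤ Real.exp X := Real.one_le_exp hX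
  rw [Real.exp_add]
  nlinarith [Real.add_one_le_exp S, Real.exp_pos X]

theorem posLog_le_self {t : ℝ} (ht : 0 ≤ t) : Real.posLog t ≤ t := by
  unfold Real.posLog
  refine max_le ht ?_
  rcases ht.eq_or_lt with h | h
  · rw [← h, Real.log_zero]
  · linarith [Real.log_le_sub_one_of_pos h]

theorem solve (B : ℕ → ℕ → ℂ) (b : ℕ → ℂ) (hB : Summable fun p : ℕ × ℕ => ‖B p.1 p.2‖)
    (hb : Summable fun m => ‖b m‖)
    (hW : liminf (fun N => Lam ‖(1 - tr B N).det‖) atTop ≠ ⊤) :
    ∃ f : ℕ → ℂ, (∀ m, Tendsto (fun N => fN B b N m) atTop (𝓝 (f m))) ∧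
      (Summable fun m => ‖f m‖) ∧ (∀ m, Summable fun j => B m j * f j) ∧
      (∀ m, f m = b m + ∑' j, B m j * f j) ∧
      Real.posLog (∑' m, ‖f m‖) ≤ ∑' m, ‖b m‖ + 2 * (∑' p : ℕ × ℕ, ‖B p.1 p.2‖) +
        (liminf (fun N => Lam ‖(1 - tr B N).det‖) atTop).toReal + 2 := by
  set W := liminf (fun N => Lam ‖(1 - tr B N).det‖) atTop with hWdef
  set S := ∑' p : ℕ × ℕ, ‖B p.1 p.2‖ with hS
  set β := ∑' m, ‖b m‖ with hβ
  have hS0 : 0 ≤ S := tsum_nonneg fun _ => norm_nonneg _
  have hβ0 : 0 ≤ β := tsum_nonneg fun _ => norm_nonneg _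
  have hrow : ∀ m, Summable fun j => ‖B m j‖ := fun m => hB.prod_factor m
  have hrows : Summable fun m => ∑' j, ‖B m j‖ := hB.prod
  have hcol : ∀ m, Summable fun j => ‖B j m‖ := fun m =>
    ((Equiv.prodComm ℕ ℕ).summable_iff.mpr hB).prod_factor m
  have hcols : Summable fun m => ∑' j, ‖B j m‖ :=
    ((Equiv.prodComm ℕ ℕ).summable_iff.mpr hB).prod
  -- the determinants converge
  have hcau : CauchySeq fun N => (1 - tr B N).det := by
    refine cauchySeq_of_dist_le_of_summable (fun N => Real.exp S * ∑' j, ‖B j N‖) ?_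
      (hcols.mul_left _)
    intro N
    rw [dist_comm, dist_eq_norm]
    refine (det_succ B S N (ns_tr_le B hB _)).trans ?_
    exact mul_le_mul_of_nonneg_left ((hcol N).sum_le_tsum _ fun _ _ => norm_nonneg _)
      (Real.exp_pos _).le
  obtain ⟨d, hd⟩ := cauchySeq_tendsto_of_complete hcau
  have hdn : Tendsto (fun N => ‖(1 - tr B N).det‖) atTop (𝓝 ‖d‖) := hd.norm
  set w : ℝ := W.toReal + 1 with hw
  have hw0 : 0 ≤ w := by positivity
  have hfr : ∃ᶠ N in atTop, Real.exp (-w) ≤ ‖(1 - tr B N).det‖ := by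
    have h1 : W < ENNReal.ofReal w := by
      rw [← ENNReal.ofReal_toReal hW]
      rw [ENNReal.ofReal_lt_ofReal_iff (by positivity)]
      rw [hw]
      linarith
    refine (frequently_lt_of_liminf_lt (by isBoundedDefault) (hWdef ▸ h1)).mono fun N hN => ?_
    unfold Lam at hN
    split_ifs at hN with h0
    · exact absurd hN (by simp)
    · have h2 : -Real.log ‖(1 - tr B N).det‖ < w := by
        by_contra hcon
        push Not at hcon
        exact absurd hN (not_lt.mpr (ENNReal.ofReal_le_ofReal hcon))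
      have hpos : 0 < ‖(1 - tr B N).det‖ := lt_of_le_of_ne (norm_nonneg _) (Ne.symm h0)
      rw [← Real.le_log_iff_exp_le hpos]
      linarith
  have hdle : Real.exp (-w) ≤ ‖d‖ := by
    by_contra hcon
    push Not at hcon
    obtain ⟨N, h1, h2⟩ := (hfr.and_eventually (hdn.eventually (gt_mem_nhds hcon))).exists
    exact absurd h1 (not_le.mpr h2)
  set δ : ℝ := Real.exp (-(w + 1)) with hδ
  have hδ0 : 0 < δ := Real.exp_pos _
  have hev : ∀ᶠ N in atTop, δ ≤ ‖(1 - tr B N).det‖ := by
    have h1 : δ < ‖d‖ := lt_of_lt_of_le (Real.exp_lt_exp.mpr (by linarith)) hdle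
    exact (hdn.eventually (lt_mem_nhds h1)).mono fun N h => h.le
  obtain ⟨N₀, hN₀⟩ := eventually_atTop.mp hev
  have hdne : ∀ N, N₀ ≤ N → (1 - tr B N).det ≠ 0 := fun N hN h0 => by
    have := hN₀ N hN
    rw [h0, norm_zero] at this
    linarith
  set C : ℝ := Real.exp S / δ with hC
  have hC0 : 0 ≤ C := by positivity
  have hsol : ∀ N, N₀ ≤ N → ∀ (h r : Fin N → ℂ), (1 - tr B N) *ᵥ h = r → ∀ i,
      ‖h i‖ ≤ C * ∑ j, ‖r j‖ := by
    intro N hN h r hr i
    refine (sol_le (tr B N) (hdne N hN) h r hr i).trans ?_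
    refine mul_le_mul_of_nonneg_right ?_ (Finset.sum_nonneg fun _ _ => norm_nonneg _)
    exact div_le_div₀ (Real.exp_pos _).le (Real.exp_le_exp.mpr (ns_tr_le B hB N)) hδ0 (hN₀ N hN)
  set M : ℝ := C * β with hM
  have hM0 : 0 ≤ M := by positivity
  have hfb : ∀ N, N₀ ≤ N → ∀ m, ‖fN B b N m‖ ≤ M := by
    intro N hN m
    by_cases hm : m < N
    · have h1 := hsol N hN (fun i => fN B b N i) (fun j => b j) (by
        funext i
        rw [Matrix.sub_mulVec, Matrix.one_mulVec, Pi.sub_apply, sub_eq_iff_eq_add]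
        rw [fN_eq B b N (hdne N hN) i i.2]
        congr 1
        exact (Fin.sum_univ_eq_sum_range (fun j => B i j * fN B b N j) N).symm) ⟨m, hm⟩
      refine h1.trans (mul_le_mul_of_nonneg_left ?_ hC0)
      rw [Fin.sum_univ_eq_sum_range (fun j => ‖b j‖) N]
      exact hb.sum_le_tsum _ fun _ _ => norm_nonneg _
    · rw [fN_of_le B b (not_lt.mp hm), norm_zero]
      exact hM0
  -- consecutive solutions
  have hstep : ∀ N, N₀ ≤ N → ∀ m, ‖fN B b (N + 1) m - fN B b N m‖ ≤
      C * (‖b N‖ + M * ∑' j, ‖B N j‖) := by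
    intro N hN m
    have hnn : 0 ≤ C * (‖b N‖ + M * ∑' j, ‖B N j‖) := by
      have : 0 ≤ ∑' j, ‖B N j‖ := tsum_nonneg fun _ => norm_nonneg _
      positivity
    by_cases hm : m < N + 1
    · have h1 := hsol (N + 1) (by omega) (fun i => fN B b (N + 1) i - fN B b N i)
        (fun i => b i - fN B b N i + ∑ j ∈ Finset.range N, B i j * fN B b N j) (by
        funext i
        rw [Matrix.sub_mulVec, Matrix.one_mulVec, Pi.sub_apply]
        have h2 : (tr B (N + 1) *ᵥ fun i : Fin (N + 1) => fN B b (N + 1) i - fN B b N i) i =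
            ∑ j ∈ Finset.range (N + 1), B i j * (fN B b (N + 1) j - fN B b N j) :=
          Fin.sum_univ_eq_sum_range (fun j => B i j * (fN B b (N + 1) j - fN B b N j)) (N + 1)
        rw [h2]
        simp only [mul_sub, Finset.sum_sub_distrib]
        rw [fN_eq B b (N + 1) (hdne (N + 1) (by omega)) i i.2,
          Finset.sum_range_succ (fun j => B i j * fN B b N j), fN_of_le B b (le_refl N)]
        ring) ⟨m, hm⟩
      refine h1.trans (mul_le_mul_of_nonneg_left ?_ hC0)
      rw [Fin.sum_univ_eq_sum_range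
        (fun i => ‖b i - fN B b N i + ∑ j ∈ Finset.range N, B i j * fN B b N j‖) (N + 1),
        Finset.sum_range_succ]
      have h3 : ∑ i ∈ Finset.range N,
          ‖b i - fN B b N i + ∑ j ∈ Finset.range N, B i j * fN B b N j‖ = 0 := by
        refine Finset.sum_eq_zero fun i hi => ?_
        rw [fN_eq B b N (hdne N hN) i (Finset.mem_range.mp hi)]
        simp
      rw [h3, zero_add, fN_of_le B b (le_refl N), sub_zero]
      refine (norm_add_le _ _).trans (add_le_add le_rfl ?_)
      refine (norm_sum_le _ _).trans ?_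
      calc ∑ j ∈ Finset.range N, ‖B N j * fN B b N j‖
          ≤ ∑ j ∈ Finset.range N, M * ‖B N j‖ := by
            refine Finset.sum_le_sum fun j _ => ?_
            rw [norm_mul, mul_comm]
            exact mul_le_mul_of_nonneg_right (hfb N hN j) (norm_nonneg _)
        _ = M * ∑ j ∈ Finset.range N, ‖B N j‖ := by rw [Finset.mul_sum]
        _ ≤ M * ∑' j, ‖B N j‖ := mul_le_mul_of_nonneg_left
            ((hrow N).sum_le_tsum _ fun _ _ => norm_nonneg _) hM0
    · rw [fN_of_le B b (by omega), fN_of_le B b (by omega), sub_zero, norm_zero]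
      exact hnn
  have hρ : Summable fun N => C * (‖b N‖ + M * ∑' j, ‖B N j‖) :=
    (hb.add (hrows.mul_left M)).mul_left C
  have hlim : ∀ m, ∃ l, Tendsto (fun N => fN B b N m) atTop (𝓝 l) := by
    intro m
    have h1 : CauchySeq fun n => fN B b (n + N₀) m := by
      refine cauchySeq_of_dist_le_of_summable
        (fun n => C * (‖b (n + N₀)‖ + M * ∑' j, ‖B (n + N₀) j‖)) ?_
        ((summable_nat_add_iff N₀).mpr hρ)
      intro n
      rw [dist_comm, dist_eq_norm]
      have := hstep (n + N₀) (by omega) m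
      rwa [show n + N₀ + 1 = n.succ + N₀ by omega] at this
    obtain ⟨l, hl⟩ := cauchySeq_tendsto_of_complete h1
    exact ⟨l, (tendsto_add_atTop_iff_nat N₀).mp hl⟩
  choose f hf using hlim
  have hfM : ∀ m, ‖f m‖ ≤ M := fun m =>
    le_of_tendsto (hf m).norm (eventually_atTop.mpr ⟨N₀, fun N hN => hfb N hN m⟩)
  have hBf : ∀ m, Summable fun j => B m j * f j := by
    intro m
    refine Summable.of_norm_bounded ((hrow m).mul_left M) fun j => ?_
    rw [norm_mul, mul_comm]
    exact mul_le_mul_of_nonneg_right (hfM j) (norm_nonneg _)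
  have hfeq : ∀ m, f m = b m + ∑' j, B m j * f j := by
    intro m
    have h1 : Tendsto (fun N => b m + ∑' j, B m j * fN B b N j) atTop
        (𝓝 (b m + ∑' j, B m j * f j)) := by
      refine tendsto_const_nhds.add ?_
      refine tendsto_tsum_of_dominated_convergence (bound := fun j => M * ‖B m j‖)
        ((hrow m).mul_left M) (fun j => (hf j).const_mul _) ?_
      refine eventually_atTop.mpr ⟨N₀, fun N hN j => ?_⟩
      rw [norm_mul, mul_comm]
      exact mul_le_mul_of_nonneg_right (hfb N hN j) (norm_nonneg _)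
    refine tendsto_nhds_unique (hf m) (h1.congr' ?_)
    refine eventually_atTop.mpr ⟨max N₀ (m + 1), fun N hN => ?_⟩
    have hN1 : N₀ ≤ N := (le_max_left _ _).trans hN
    have hN2 : m < N := lt_of_lt_of_le (Nat.lt_succ_self m) ((le_max_right _ _).trans hN)
    simp only
    rw [tsum_eq_sum (s := Finset.range N) (fun j hj => by
      rw [fN_of_le B b (not_lt.mp (fun h => hj (Finset.mem_range.mpr h))), mul_zero]),
      ← fN_eq B b N (hdne N hN1) m hN2]
  have hfn : ∀ m, ‖f m‖ ≤ ‖b m‖ + M * ∑' j, ‖B m j‖ := by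
    intro m
    rw [hfeq m]
    refine (norm_add_le _ _).trans (add_le_add le_rfl ?_)
    rw [← tsum_mul_left]
    refine tsum_of_norm_bounded ((hrow m).mul_left M).hasSum fun j => ?_
    rw [norm_mul, mul_comm]
    exact mul_le_mul_of_nonneg_right (hfM j) (norm_nonneg _)
  have hfs : Summable fun m => ‖f m‖ :=
    Summable.of_nonneg_of_le (fun _ => norm_nonneg _) hfn (hb.add (hrows.mul_left M))
  refine ⟨f, hf, hfs, hBf, hfeq, ?_⟩
  have h1 : ∑' m, ‖f m‖ ≤ β + M * S := by
    refine (hfs.tsum_le_tsum hfn (hb.add (hrows.mul_left M))).trans ?_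
    rw [hb.tsum_add (hrows.mul_left M), tsum_mul_left, hS, hB.tsum_prod]
  have h2 : β + M * S ≤ β * Real.exp (S + (S + (w + 1))) := by
    have h3 := one_add_mul_exp_le S (S + (w + 1)) (by positivity)
    have h4 : M = β * Real.exp (S + (w + 1)) := by
      rw [hM, hC, hδ, Real.exp_neg, div_inv_eq_mul, ← Real.exp_add, mul_comm]
    rw [h4]
    nlinarith
  have h5 : Real.posLog (∑' m, ‖f m‖) ≤ Real.posLog (β * Real.exp (S + (S + (w + 1)))) :=
    Real.posLog_le_posLog (tsum_nonneg fun _ => norm_nonneg _) (h1.trans h2)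
  have h6 : Real.posLog (Real.exp (S + (S + (w + 1)))) = S + (S + (w + 1)) := by
    unfold Real.posLog
    rw [Real.log_exp, max_eq_right (by positivity)]
  refine h5.trans (Real.posLog_mul.trans ?_)
  rw [h6]
  have h7 := posLog_le_self hβ0
  rw [hw]
  linarith

end Pool.Agent.Q62.RP
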